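import Pool.Agent.helper87.FM.Spec

/-!
# Row fm:SU2 (MP_abccb5_co): stage 2, the big points (adapted from helper48/NS/SU2.lean)
-/

set_option autoImplicit false

namespace Pool.Agent.FM

open Polynomial Matrix Pool.Agent.helper42.NS Pool.Agent.FS

/-- the points of the potential function -/
def SU2_S (a : ℕ) {t : ℕ} (H : Matrix (Fin t) (Fin t) ℤ) : Set Pt :=
  {P | 2 ^ a ≤ qP P ∧ 37 ≤ crk P H}

/-- the potential function -/
noncomputable def SU2_X (a t : ℕ) (H : Matrix (Fin t) (Fin t) ℤ) : ℝ :=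
  ∑ᶠ P ∈ SU2_S a H, ((2 : ℝ) ^ (a - 3)) ^ (crk P H - 37)

theorem SU2_nonneg (a t : ℕ) (H : Matrix (Fin t) (Fin t) ℤ) : 0 ≤ SU2_X a t H := by
  unfold SU2_X
  exact finsum_nonneg fun P => finsum_nonneg fun _ => by positivity

theorem SU2_of (a t : ℕ) (H : Matrix (Fin t) (Fin t) ℤ) (S : Finset Pt)
    (hS : ∀ P, P ∈ S ↔ 2 ^ a ≤ qP P ∧ 37 ≤ crk P H) :
    SU2_X a t H = ∑ P ∈ S, ((2 : ℝ) ^ (a - 3)) ^ (crk P H - 37) := by
  have h : SU2_S a H = (S : Set Pt) := by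
    ext P
    rw [Finset.mem_coe, hS P]
    rfl
  unfold SU2_X
  rw [h, finsum_mem_coe_finset]

theorem SU2_prop (a p t : ℕ) (ha : 20 ≤ a) (ht : 3 * 2 ^ (10 * a - 2) ≤ t)
    (H : Matrix (Fin t) (Fin t) ℤ) (hQ : W2 a p t H) :
    Good (11 * a + 10) H ∧ R1 a H ∧ R2 a H ∧ ∀ P : Pt, Above p P → crk P H ≤ 24 := by
  obtain ⟨⟨hG, hR⟩, hC⟩ := hQ
  have e : 2 ^ (10 * a - 1) ≤ t := by
    refine le_trans ?_ ht
    rw [show 10 * a - 1 = (10 * a - 2) + 1 by omega, pow_succ]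
    have : 0 < 2 ^ (10 * a - 2) := by positivity
    omega
  exact ⟨hG, (hR e).1, (hR e).2, hC ht⟩

theorem SU2_pts (h3 : CR2_stmt) (a p t : ℕ) (ha : 20 ≤ a) (hp : p.Prime) (hpa : 2 ^ (3 * a) ≤ p)
    (ht : 3 * 2 ^ (10 * a - 2) ≤ t) (htm : t ≤ 2 ^ (10 * a + 10)) (H : Matrix (Fin t) (Fin t) ℤ)
    (hH : IsGr H) (hQ : W2 a p t H) :
    ∃ S : Finset Pt, (∀ P, P ∈ S ↔ 2 ^ a ≤ qP P ∧ 37 ≤ crk P H) ∧ S.card ≤ 2 ^ (40 * a + 41) := by
  obtain ⟨-, hR1, -, hC⟩ := SU2_prop a p t ha ht H hQ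
  refine STP_fin (fun P : Pt => 2 ^ a ≤ qP P ∧ 37 ≤ crk P H) _ ?_
  intro s hs
  exact h3 a t p H ha hp hpa hH hR1 htm hC s (fun P hP => (hs P hP).2)

theorem SU2_hered (Q : ∀ t : ℕ, Matrix (Fin t) (Fin t) ℤ → Prop) (t : ℕ)
    (H : Matrix (Fin t) (Fin t) ℤ) (h : Hered Q t H) : Q t H := by
  cases t with
  | zero => exact h
  | succ t => exact h.1

theorem SU2_step (h3 : CR2_stmt) (a p t : ℕ) (ha : 20 ≤ a)
    (hp : p.Prime) (hpa : 2 ^ (3 * a) ≤ p) (ht : 3 * 2 ^ (10 * a - 2) ≤ t)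
    (htm : t < 2 ^ (10 * a + 10)) (H : Matrix (Fin t) (Fin t) ℤ) (hH : IsGr H) (hQ : W2 a p t H)
    (s : Finset (Fin t → Bool)) (hs : ∀ b ∈ s, W2 a p (t + 1) (bord H (ind b))) :
    ∑ b ∈ s, SU2_X a (t + 1) (bord H (ind b)) ≤
      2 ^ t * (SU2_X a t H / 2 + 2 ^ (40 * a + 41)) := by
  classical
  obtain ⟨S, hS, hSc⟩ := SU2_pts h3 a p t ha hp hpa ht htm.le H hH hQ
  obtain ⟨-, hR1, hR2, -⟩ := SU2_prop a p t ha ht H hQ
  set D : ℝ := (2 : ℝ) ^ (a - 3) with hD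
  have hD0 : 0 < D := by positivity
  have hsym := hH.2.2
  -- one vector
  have hone : ∀ b ∈ s, SU2_X a (t + 1) (bord H (ind b)) ≤
      ∑ P ∈ S, D ^ crk P (bord H (ind b)) / D ^ 37 + 2 ^ (40 * a + 41) := by
    intro b hb
    obtain ⟨Sb, hSb, hSbc⟩ := SU2_pts h3 a p (t + 1) ha hp hpa (by omega) (by omega)
      (bord H (ind b)) (CNT_gr hH b) (hs b hb)
    rw [SU2_of a (t + 1) _ Sb hSb, ← hD,
      ← Finset.sum_filter_add_sum_filter_not Sb (fun P => P ∈ S)]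
    refine add_le_add ?_ ?_
    · calc ∑ P ∈ Sb.filter (fun P => P ∈ S), D ^ (crk P (bord H (ind b)) - 37)
          = ∑ P ∈ Sb.filter (fun P => P ∈ S), D ^ crk P (bord H (ind b)) / D ^ 37 := by
            refine Finset.sum_congr rfl fun P hP => ?_
            have h := ((hSb P).1 (Finset.mem_filter.1 hP).1).2
            rw [eq_div_iff (by positivity), ← pow_add]
            congr 1
            omega
        _ ≤ ∑ P ∈ S, D ^ crk P (bord H (ind b)) / D ^ 37 := by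
            refine Finset.sum_le_sum_of_subset_of_nonneg ?_ ?_
            · intro P hP
              exact (Finset.mem_filter.1 hP).2
            · intro P _ _
              positivity
    · calc ∑ P ∈ Sb.filter (fun P => ¬ P ∈ S), D ^ (crk P (bord H (ind b)) - 37)
          = ∑ P ∈ Sb.filter (fun P => ¬ P ∈ S), (1 : ℝ) := by
            refine Finset.sum_congr rfl fun P hP => ?_
            obtain ⟨hP1, hP2⟩ := Finset.mem_filter.1 hP
            have h := (hSb P).1 hP1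
            have h' : crk P H ≤ 36 := by
              by_contra hcon
              exact hP2 ((hS P).2 ⟨h.1, by omega⟩)
            have h'' := (STP_vtx VTX t H P b hsym).1
            rw [show crk P (bord H (ind b)) - 37 = 0 by omega, pow_zero]
        _ = ((Sb.filter (fun P => ¬ P ∈ S)).card : ℝ) := by
            rw [Finset.sum_const, nsmul_eq_mul, mul_one]
        _ ≤ (Sb.card : ℝ) := by
            exact_mod_cast Finset.card_filter_le _ _
        _ ≤ 2 ^ (40 * a + 41) := by exact_mod_cast hSbc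
  -- one point
  have hpt : ∀ P ∈ S, ∑ b : Fin t → Bool, D ^ crk P (bord H (ind b)) ≤
      2 ^ t * (D ^ crk P H / 2) := by
    intro P hP
    have h := T_PSB a t P H (by omega) hsym hR1 hR2 ((hS P).1 hP).1 (by have := ((hS P).1 hP).2; omega)
    have h' : (2 : ℝ) * ∑ b : Fin t → Bool, D ^ crk P (bord H (ind b)) ≤ 2 ^ t * D ^ crk P H := by
      rw [hD]
      exact_mod_cast h
    linarith
  calc ∑ b ∈ s, SU2_X a (t + 1) (bord H (ind b))
      ≤ ∑ b ∈ s, (∑ P ∈ S, D ^ crk P (bord H (ind b)) / D ^ 37 + 2 ^ (40 * a + 41)) :=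
        Finset.sum_le_sum hone
    _ ≤ ∑ b : Fin t → Bool, (∑ P ∈ S, D ^ crk P (bord H (ind b)) / D ^ 37 + 2 ^ (40 * a + 41)) := by
        refine Finset.sum_le_sum_of_subset_of_nonneg (Finset.subset_univ s) ?_
        intro b _ _
        have : 0 ≤ ∑ P ∈ S, D ^ crk P (bord H (ind b)) / D ^ 37 :=
          Finset.sum_nonneg fun P _ => by positivity
        positivity
    _ = ∑ P ∈ S, (∑ b : Fin t → Bool, D ^ crk P (bord H (ind b))) / D ^ 37 +
          2 ^ t * 2 ^ (40 * a + 41) := by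
        rw [Finset.sum_add_distrib, Finset.sum_comm]
        congr 1
        · refine Finset.sum_congr rfl fun P _ => ?_
          rw [Finset.sum_div]
        · rw [Finset.sum_const, nsmul_eq_mul]
          congr 1
          simp
    _ ≤ ∑ P ∈ S, 2 ^ t * (D ^ (crk P H - 37) / 2) + 2 ^ t * 2 ^ (40 * a + 41) := by
        gcongr with P hP
        have h := hpt P hP
        rw [div_le_iff₀ (by positivity)]
        refine h.trans (le_of_eq ?_)
        have e : D ^ crk P H = D ^ (crk P H - 37) * D ^ 37 := by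
          rw [← pow_add]
          congr 1
          have := ((hS P).1 hP).2
          omega
        rw [e]
        ring
    _ = 2 ^ t * (SU2_X a t H / 2 + 2 ^ (40 * a + 41)) := by
        rw [SU2_of a t H S hS, ← hD, ← Finset.mul_sum, ← Finset.sum_div]
        ring

theorem SU2_num (a : ℕ) (ha : 20 ≤ a) :
    2 ^ (40 * a + 41) * (2 ^ (a - 3)) ^ (55 * a + 53) ≤ 2 ^ 2 ^ (10 * a - 2) := by
  rw [← pow_mul, ← pow_add]
  refine Nat.pow_le_pow_right (by norm_num) ?_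
  have h1 : a < 2 ^ a := Nat.lt_two_pow_self
  have h2 : (2 ^ a) * (2 ^ a) * 2 ^ 6 ≤ 2 ^ (10 * a - 2) := by
    rw [← pow_add, ← pow_add]
    exact Nat.pow_le_pow_right (by norm_num) (by omega)
  obtain ⟨c, rfl⟩ : ∃ c, a = c + 20 := ⟨a - 20, by omega⟩
  have h3 : c + 20 - 3 = c + 17 := by omega
  rw [h3]
  nlinarith [Nat.mul_le_mul h1.le h1.le]

theorem SU2_arith (a Z C : ℕ) (X : ℝ) (ha : 20 ≤ a) (hX : X ≤ 1)
    (h : (Z : ℝ) * ((2 : ℝ) ^ (a - 3)) ^ 45 ≤ 2 ^ C * (X + 2 * 2 ^ (40 * a + 41))) :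
    Z * 2 ^ (5 * a) ≤ 2 ^ 178 * 2 ^ C := by
  have h5 : (Z : ℝ) * ((2 : ℝ) ^ (a - 3)) ^ 45 ≤ 2 ^ C * 2 ^ (40 * a + 43) := by
    refine h.trans (mul_le_mul_of_nonneg_left ?_ (by positivity))
    have e : (2 : ℝ) ^ (40 * a + 43) = 4 * 2 ^ (40 * a + 41) := by
      rw [show 40 * a + 43 = (40 * a + 41) + 2 by omega, pow_add]
      ring
    have h1' : (1 : ℝ) ≤ 2 ^ (40 * a + 41) := one_le_pow₀ (by norm_num)
    rw [e]
    linarith
  have h6 : Z * (2 ^ (a - 3)) ^ 45 ≤ 2 ^ C * 2 ^ (40 * a + 43) := by exact_mod_cast h5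
  have h7 : (Z * 2 ^ (5 * a)) * 2 ^ (40 * a - 135) ≤ (2 ^ 178 * 2 ^ C) * 2 ^ (40 * a - 135) := by
    calc (Z * 2 ^ (5 * a)) * 2 ^ (40 * a - 135) = Z * (2 ^ (a - 3)) ^ 45 := by
          rw [mul_assoc, ← pow_add, ← pow_mul,
            show 5 * a + (40 * a - 135) = (a - 3) * 45 by omega]
      _ ≤ 2 ^ C * 2 ^ (40 * a + 43) := h6
      _ = (2 ^ 178 * 2 ^ C) * 2 ^ (40 * a - 135) := by
          rw [show 40 * a + 43 = 178 + (40 * a - 135) by omega, pow_add]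
          ring
  exact Nat.le_of_mul_le_mul_right h7 (by positivity)

theorem SU2 (h1 : CR2_stmt) : SU2_stmt := by
  intro a m p ha hp hpa hm1 hm2
  have e0 : 2 ^ (10 * a) = 4 * 2 ^ (10 * a - 2) := by
    rw [show 10 * a = (10 * a - 2) + 2 by omega, pow_add]
    simp only [Nat.add_sub_cancel]
    ring
  have ht0 : 3 * 2 ^ (10 * a - 2) ≤ m := by omega
  have hsub : 2 ^ (10 * a - 2) ≤ m - 3 * 2 ^ (10 * a - 2) := by omega
  have hD1 : (1 : ℝ) ≤ (2 : ℝ) ^ (a - 3) := one_le_pow₀ (by norm_num)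
  have key := POT (W2 a p) (SU2_X a) (3 * 2 ^ (10 * a - 2)) m
    (2 ^ (40 * a + 41) * (2 ^ (a - 3)) ^ (55 * a + 53)) (2 ^ (40 * a + 41))
    ((2 ^ (a - 3)) ^ 45) ht0 (by positivity) (by positivity) (by positivity) (SU2_nonneg a)
    (by
      intro H hH hQ
      have hQ' := SU2_hered _ _ H hQ
      obtain ⟨S, hS, hSc⟩ := SU2_pts h1 a p _ ha hp hpa le_rfl (ht0.trans hm2) H hH hQ'
      have hG := (SU2_prop a p _ ha le_rfl H hQ').1
      rw [SU2_of a _ H S hS]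
      calc ∑ P ∈ S, ((2 : ℝ) ^ (a - 3)) ^ (crk P H - 37)
          ≤ ∑ P ∈ S, ((2 : ℝ) ^ (a - 3)) ^ (55 * a + 53) := by
            refine Finset.sum_le_sum fun P _ => ?_
            refine pow_le_pow_right₀ hD1 ?_
            have := (hG P).2
            omega
        _ = (S.card : ℝ) * ((2 : ℝ) ^ (a - 3)) ^ (55 * a + 53) := by
            rw [Finset.sum_const, nsmul_eq_mul]
        _ ≤ 2 ^ (40 * a + 41) * (2 ^ (a - 3)) ^ (55 * a + 53) := by
            gcongr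
            exact_mod_cast hSc)
    (by
      intro t ht htm H hH hQ s hs
      exact SU2_step h1 a p t ha hp hpa ht (by omega) H hH (SU2_hered _ _ H hQ) s
        (fun b hb => SU2_hered _ _ _ (hs b hb)))
  -- the inclusion of the events
  have hincl : cnt m (fun H => Hered (W2 a p) m H ∧
      ∃ P : Pt, 2 ^ a ≤ qP P ∧ 82 ≤ crk P H) ≤
      cnt m (fun H => Hered (W2 a p) m H ∧
        ((2 : ℝ) ^ (a - 3)) ^ 45 ≤ SU2_X a m H) := by
    refine Set.ncard_le_ncard ?_ ((CNT_fin _).subset fun H h => h.1)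
    rintro H ⟨hH, hQ, P, hP1, hP2⟩
    refine ⟨hH, hQ, ?_⟩
    obtain ⟨S, hS, -⟩ := SU2_pts h1 a p _ ha hp hpa ht0 hm2 H hH (SU2_hered _ _ H hQ)
    rw [SU2_of a _ H S hS]
    calc ((2 : ℝ) ^ (a - 3)) ^ 45 ≤ ((2 : ℝ) ^ (a - 3)) ^ (crk P H - 37) :=
          pow_le_pow_right₀ hD1 (by omega)
      _ ≤ ∑ P ∈ S, ((2 : ℝ) ^ (a - 3)) ^ (crk P H - 37) :=
          Finset.single_le_sum (f := fun P => ((2 : ℝ) ^ (a - 3)) ^ (crk P H - 37))
            (fun P _ => by positivity) ((hS P).2 ⟨hP1, by omega⟩)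
  have hnum : (2 : ℝ) ^ (40 * a + 41) * (2 ^ (a - 3)) ^ (55 * a + 53) / 2 ^ (m - 3 * 2 ^ (10 * a - 2)) ≤ 1 := by
    rw [div_le_one (by positivity)]
    have h5 := (SU2_num a ha).trans (Nat.pow_le_pow_right (by norm_num : 0 < 2) hsub)
    exact_mod_cast h5
  refine SU2_arith a _ (m.choose 2) _ ha hnum (le_trans ?_ key)
  refine mul_le_mul_of_nonneg_right ?_ (by positivity)
  exact_mod_cast hincl

end Pool.Agent.FM
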