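import Pool.Agent.helper94.FM.Spec

/-!
# FM (MP_16912e_nt), row V3: partial summation
-/

set_option autoImplicit false

open Finset Filter Topology NumberField Module Pool.Agent.helper9.Tors

namespace Pool.Agent.FM

/-- One dyadic step. -/
lemma V3_step {κ C₀ : ℝ} {g : ℤ → ℝ} (hg : ∀ D, 0 ≤ g D)
    (hS : ∀ N : ℕ, 1 ≤ N → ∑ D ∈ Finset.Ioo (-(N : ℤ)) 0, g D ≤ C₀ * (N : ℝ) ^ κ)
    {X Y : ℕ} (hX : 2 ≤ X) (hYX : Y ≤ X) (hY : X ≤ 2 * Y) :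
    ∑ D ∈ Finset.Ioo (-(X : ℤ)) 0, g D / √((-D : ℤ) : ℝ) ≤
      ∑ D ∈ Finset.Ioo (-(Y : ℤ)) 0, g D / √((-D : ℤ) : ℝ) + √2 * C₀ * (X : ℝ) ^ (κ - 1 / 2) := by
  have hXpos : (0 : ℝ) < X := by exact_mod_cast (by omega : 0 < X)
  have hsplit : Finset.Ioo (-(X : ℤ)) 0 = Finset.Ioo (-(Y : ℤ)) 0 ∪ Finset.Ioc (-(X : ℤ)) (-(Y : ℤ)) := by
    ext D
    rw [Finset.mem_union, Finset.mem_Ioo, Finset.mem_Ioo, Finset.mem_Ioc]
    omega
  have hdisj : Disjoint (Finset.Ioo (-(Y : ℤ)) 0) (Finset.Ioc (-(X : ℤ)) (-(Y : ℤ))) := by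
    rw [Finset.disjoint_left]
    intro D hD hD'
    rw [Finset.mem_Ioo] at hD
    rw [Finset.mem_Ioc] at hD'
    omega
  rw [hsplit, Finset.sum_union hdisj]
  refine add_le_add le_rfl ?_
  have h1 : ∀ D ∈ Finset.Ioc (-(X : ℤ)) (-(Y : ℤ)), g D / √((-D : ℤ) : ℝ) ≤ g D * (√2 / √(X : ℝ)) := by
    intro D hD
    rw [Finset.mem_Ioc] at hD
    have h2 : (X : ℝ) / 2 ≤ ((-D : ℤ) : ℝ) := by
      have h3 : (X : ℤ) ≤ 2 * (-D) := by omega
      have h4 : ((X : ℤ) : ℝ) ≤ ((2 * (-D) : ℤ) : ℝ) := by exact_mod_cast h3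
      push_cast at h4 ⊢
      linarith
    have h5 : √(X : ℝ) / √2 ≤ √((-D : ℤ) : ℝ) := by
      rw [← Real.sqrt_div hXpos.le]
      exact Real.sqrt_le_sqrt h2
    have h6 : 0 < √(X : ℝ) / √2 := by positivity
    rw [div_eq_mul_inv]
    refine mul_le_mul_of_nonneg_left ?_ (hg D)
    calc (√((-D : ℤ) : ℝ))⁻¹ ≤ (√(X : ℝ) / √2)⁻¹ := inv_anti₀ h6 h5
      _ = √2 / √(X : ℝ) := inv_div _ _
  calc ∑ D ∈ Finset.Ioc (-(X : ℤ)) (-(Y : ℤ)), g D / √((-D : ℤ) : ℝ)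
      ≤ ∑ D ∈ Finset.Ioc (-(X : ℤ)) (-(Y : ℤ)), g D * (√2 / √(X : ℝ)) := Finset.sum_le_sum h1
    _ = (∑ D ∈ Finset.Ioc (-(X : ℤ)) (-(Y : ℤ)), g D) * (√2 / √(X : ℝ)) := by rw [Finset.sum_mul]
    _ ≤ (∑ D ∈ Finset.Ioo (-(X : ℤ)) 0, g D) * (√2 / √(X : ℝ)) := by
        refine mul_le_mul_of_nonneg_right ?_ (by positivity)
        refine Finset.sum_le_sum_of_subset_of_nonneg ?_ (fun D _ _ => hg D)
        intro D hD
        rw [Finset.mem_Ioc] at hD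
        rw [Finset.mem_Ioo]
        omega
    _ ≤ (C₀ * (X : ℝ) ^ κ) * (√2 / √(X : ℝ)) :=
        mul_le_mul_of_nonneg_right (hS X (by omega)) (by positivity)
    _ = √2 * C₀ * (X : ℝ) ^ (κ - 1 / 2) := by
        rw [Real.rpow_sub hXpos, ← Real.sqrt_eq_rpow]
        ring

theorem V3 : V3_stmt := by
  intro κ hκ
  set t : ℝ := κ - 1 / 2 with ht
  have ht0 : 0 < t := by rw [ht]; linarith
  have hlt : (3 / 4 : ℝ) ^ t < 1 := Real.rpow_lt_one (by norm_num) (by norm_num) ht0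
  set C : ℝ := max 1 (√2 / (1 - (3 / 4 : ℝ) ^ t)) with hC
  refine ⟨C, le_max_left _ _, ?_⟩
  intro C₀ g hC₀ hg hS X
  have hC0 : 0 ≤ C := le_trans zero_le_one (le_max_left _ _)
  have hC2 : √2 ≤ C * (1 - (3 / 4 : ℝ) ^ t) := by
    have h1 : √2 / (1 - (3 / 4 : ℝ) ^ t) ≤ C := le_max_right _ _
    rwa [div_le_iff₀ (by linarith)] at h1
  induction X using Nat.strong_induction_on with
  | _ X ih =>
    intro hX
    rcases Nat.lt_or_ge X 2 with h2 | h2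
    · have hX1 : X = 1 := by omega
      subst hX1
      have h3 : Finset.Ioo (-((1 : ℕ) : ℤ)) 0 = ∅ := by
        ext D
        rw [Finset.mem_Ioo]
        simp only [Finset.notMem_empty, iff_false]
        omega
      rw [h3, Finset.sum_empty]
      positivity
    · have hXpos : (0 : ℝ) < X := by exact_mod_cast (by omega : 0 < X)
      have h3 := V3_step (κ := κ) hg hS (X := X) (Y := (X + 1) / 2) h2 (by omega) (by omega)
      have h4 := ih ((X + 1) / 2) (by omega) (by omega)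
      have h5 : (((X + 1) / 2 : ℕ) : ℝ) ≤ 3 / 4 * X := by
        have h6 : 4 * ((X + 1) / 2) ≤ 3 * X := by omega
        have h7 : ((4 * ((X + 1) / 2) : ℕ) : ℝ) ≤ ((3 * X : ℕ) : ℝ) := by exact_mod_cast h6
        push_cast at h7 ⊢
        linarith
      have h8 : (((X + 1) / 2 : ℕ) : ℝ) ^ t ≤ (3 / 4 : ℝ) ^ t * (X : ℝ) ^ t := by
        rw [← Real.mul_rpow (by norm_num) hXpos.le]
        exact Real.rpow_le_rpow (Nat.cast_nonneg _) h5 ht0.le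
      have h9 : C * C₀ * (((X + 1) / 2 : ℕ) : ℝ) ^ t ≤ C * C₀ * ((3 / 4 : ℝ) ^ t * (X : ℝ) ^ t) :=
        mul_le_mul_of_nonneg_left h8 (mul_nonneg hC0 hC₀)
      have h10 : √2 * (C₀ * (X : ℝ) ^ t) ≤ (C * (1 - (3 / 4 : ℝ) ^ t)) * (C₀ * (X : ℝ) ^ t) :=
        mul_le_mul_of_nonneg_right hC2 (mul_nonneg hC₀ (Real.rpow_nonneg hXpos.le _))
      refine h3.trans ?_
      nlinarith [h4, h9, h10]

end Pool.Agent.FM
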